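import Pool.Agent.Helper54.LG.Def

/-!
# NW, block FL2: the kernel as an even power series
-/

set_option autoImplicit false
open MeasureTheory Set Filter Topology
open Pool.Agent.Helper54.LG (qk)

namespace Pool.Agent.Helper4.NW

/-- `E` is on `[-1, 1]` an even power series which starts with `z ^ (2 n + 2)` -/
def HasE (E : ℝ → ℝ) (n : ℕ) : Prop :=
  ∃ a : ℕ → ℝ, Summable (fun m => |a m|) ∧ (∀ m ≤ n, a m = 0) ∧
    ∀ z : ℝ, |z| ≤ 1 → HasSum (fun m => a m * z ^ (2 * m)) (E z)

lemma HasE.step {E : ℝ → ℝ} {n : ℕ} (h : HasE E n) {k : ℝ} (hk : 0 < k) :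
    HasE (fun z => (E (z / (1 + k)) - E z / (1 + k) ^ (2 * (n + 1))) / (1 - 1 / (1 + k) ^ (2 * (n + 1)))) (n + 1) := by
  obtain ⟨a, ha, h0, hs⟩ := h
  set r : ℝ := 1 / (1 + k) with hr
  have hr0 : 0 < r := by positivity
  have hr1 : r < 1 := by
    rw [hr, div_lt_one (by linarith)]
    linarith
  have hrp : ∀ m : ℕ, 1 / (1 + k) ^ m = r ^ m := by
    intro m
    rw [hr, div_pow, one_pow]
  set c : ℝ := 1 - r ^ (2 * (n + 1)) with hc
  have hc0 : 0 < c := by
    have : r ^ (2 * (n + 1)) < 1 := pow_lt_one₀ hr0.le hr1 (by omega)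
    linarith
  refine ⟨fun m => a m * ((r ^ (2 * m) - r ^ (2 * (n + 1))) / c), ?_, ?_, ?_⟩
  · refine Summable.of_nonneg_of_le (fun m => abs_nonneg _) (fun m => ?_) (ha.mul_right (1 / c))
    rw [abs_mul, abs_div, abs_of_pos hc0]
    refine mul_le_mul_of_nonneg_left ?_ (abs_nonneg _)
    apply div_le_div_of_nonneg_right _ hc0.le
    have h1 : r ^ (2 * m) ≤ 1 := pow_le_one₀ hr0.le hr1.le
    have h2 : r ^ (2 * (n + 1)) ≤ 1 := pow_le_one₀ hr0.le hr1.le
    have h3 : 0 ≤ r ^ (2 * m) := by positivity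
    have h4 : 0 ≤ r ^ (2 * (n + 1)) := by positivity
    rw [abs_le]
    constructor <;> linarith
  · intro m hm
    rcases Nat.lt_or_ge n m with h1 | h1
    · have : m = n + 1 := by omega
      rw [this]
      simp
    · simp [h0 m h1]
  · intro z hz
    have hz' : |z / (1 + k)| ≤ 1 := by
      rw [abs_div, abs_of_pos (by linarith : 0 < 1 + k)]
      exact (div_le_self (abs_nonneg z) (by linarith)).trans hz
    have h1 := ((hs _ hz').sub ((hs _ hz).mul_right (r ^ (2 * (n + 1))))).mul_right (1 / c)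
    have e1 : (E (z / (1 + k)) - E z / (1 + k) ^ (2 * (n + 1))) / (1 - 1 / (1 + k) ^ (2 * (n + 1))) =
        (E (z / (1 + k)) - E z * r ^ (2 * (n + 1))) * (1 / c) := by
      rw [hrp, ← hc, div_eq_mul_one_div (E z), hrp]
      ring
    simp only [e1]
    have e2 : (fun m => a m * ((r ^ (2 * m) - r ^ (2 * (n + 1))) / c) * z ^ (2 * m)) =
        fun m => (a m * (z / (1 + k)) ^ (2 * m) - a m * z ^ (2 * m) * r ^ (2 * (n + 1))) * (1 / c) := by
      funext m
      have e3 : z / (1 + k) = z * r := by rw [hr]; ring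
      rw [e3, mul_pow]
      ring
    rw [e2]
    exact h1

lemma HasE.bd {E : ℝ → ℝ} {n : ℕ} (h : HasE E n) : ∃ C : ℝ, 0 ≤ C ∧ ∀ z : ℝ, |z| ≤ 1 → |E z| ≤ C * |z| ^ (2 * n + 2) := by
  obtain ⟨a, ha, h0, hs⟩ := h
  refine ⟨∑' m, |a m|, tsum_nonneg fun m => abs_nonneg _, fun z hz => ?_⟩
  have h1 := ha.hasSum.mul_right (|z| ^ (2 * n + 2))
  have h2 := (hs z hz).norm_le_of_bounded h1 (fun m => by
    rw [Real.norm_eq_abs, abs_mul, abs_pow]
    rcases Nat.lt_or_ge n m with h3 | h3
    · exact mul_le_mul_of_nonneg_left (pow_le_pow_of_le_one (abs_nonneg z) hz (by omega)) (abs_nonneg _)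
    · rw [h0 m h3, abs_zero, zero_mul, zero_mul])
  exact h2

/-- the kernel as a power series -/
lemma qk_series : ∃ c : ℕ → ℝ, c 0 = 2 / 3 ∧ (∀ m, |c m| ≤ 2 / (2 * m).factorial) ∧
    ∀ b : ℝ, HasSum (fun m => c m * b ^ (2 * m)) (qk 0 b) := by
  refine ⟨fun m => 2 * ∫ u in (0:ℝ)..1, (1 - u) ^ 2 * ((-1) ^ m * u ^ (2 * m) / (2 * m).factorial), ?_, ?_, ?_⟩
  · have h1 : ∀ u : ℝ, (1 - u) ^ 2 * ((-1) ^ 0 * u ^ (2 * 0) / (2 * 0).factorial) = 1 - 2 * u + u ^ 2 := by
      intro u
      simp
      ring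
    simp only [h1]
    have h2 : ∫ u in (0:ℝ)..1, (1 - 2 * u + u ^ 2) = 1 / 3 := by
      rw [intervalIntegral.integral_add, intervalIntegral.integral_sub]
      · rw [intervalIntegral.integral_const_mul]
        simp
        norm_num
      all_goals (apply Continuous.intervalIntegrable; fun_prop)
    rw [h2]
    norm_num
  · intro m
    rw [abs_mul, abs_two, div_eq_mul_one_div (2 : ℝ)]
    refine mul_le_mul_of_nonneg_left ?_ (by norm_num)
    have h1 := intervalIntegral.norm_integral_le_of_norm_le_const (a := (0:ℝ)) (b := 1)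
      (f := fun u => (1 - u) ^ 2 * ((-1) ^ m * u ^ (2 * m) / (2 * m).factorial)) (C := 1 / (2 * m).factorial) (by
        intro u hu
        rw [uIoc_of_le zero_le_one] at hu
        rw [Real.norm_eq_abs, abs_mul, abs_div, abs_mul, abs_pow, abs_pow, abs_neg, abs_one, one_pow, one_mul,
          abs_pow, Nat.abs_cast]
        have h2 : |1 - u| ^ 2 ≤ 1 := pow_le_one₀ (abs_nonneg _) (by rw [abs_le]; constructor <;> linarith [hu.1, hu.2])
        have h3 : |u| ^ (2 * m) ≤ 1 := pow_le_one₀ (abs_nonneg _) (by rw [abs_le]; constructor <;> linarith [hu.1, hu.2])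
        have h4 : (0 : ℝ) < (2 * m).factorial := by exact_mod_cast Nat.factorial_pos _
        calc |1 - u| ^ 2 * (|u| ^ (2 * m) / (2 * m).factorial) ≤ 1 * (1 / (2 * m).factorial) := by gcongr
          _ = _ := one_mul _)
    rw [sub_zero, abs_one, mul_one] at h1
    exact h1
  · intro b
    have h1 : HasSum (fun m : ℕ => ∫ u in (0:ℝ)..1, (1 - u) ^ 2 * ((-1) ^ m * (b * u) ^ (2 * m) / (2 * m).factorial))
        (∫ u in (0:ℝ)..1, (1 - u) ^ 2 * Real.cos (b * u)) := by
      refine intervalIntegral.hasSum_integral_of_dominated_convergence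
        (bound := fun m _ => |b| ^ (2 * m) / (2 * m).factorial) ?_ ?_ ?_ ?_ ?_
      · intro m
        apply Continuous.aestronglyMeasurable
        fun_prop
      · intro m
        refine Eventually.of_forall fun u hu => ?_
        rw [uIoc_of_le zero_le_one] at hu
        rw [Real.norm_eq_abs, abs_mul, abs_div, abs_mul, abs_pow, abs_pow, abs_neg, abs_one, one_pow, one_mul,
          abs_pow, Nat.abs_cast, abs_mul, mul_pow]
        have h2 : |1 - u| ^ 2 ≤ 1 := pow_le_one₀ (abs_nonneg _) (by rw [abs_le]; constructor <;> linarith [hu.1, hu.2])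
        have h3 : |u| ^ (2 * m) ≤ 1 := pow_le_one₀ (abs_nonneg _) (by rw [abs_le]; constructor <;> linarith [hu.1, hu.2])
        have h4 : (0 : ℝ) < (2 * m).factorial := by exact_mod_cast Nat.factorial_pos _
        calc |1 - u| ^ 2 * (|b| ^ (2 * m) * |u| ^ (2 * m) / (2 * m).factorial) ≤
            1 * (|b| ^ (2 * m) * 1 / (2 * m).factorial) := by gcongr
          _ = _ := by ring
      · refine Eventually.of_forall fun u _ => ?_
        exact (Real.summable_pow_div_factorial |b|).comp_injective (fun x y h => by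
          simpa using h : Function.Injective fun m : ℕ => 2 * m)
      · exact intervalIntegrable_const
      · refine Eventually.of_forall fun u _ => ?_
        exact (Real.hasSum_cos (b * u)).mul_left _
    have h2 := h1.mul_left 2
    have e1 : qk 0 b = 2 * ∫ u in (0:ℝ)..1, (1 - u) ^ 2 * Real.cos (b * u) := by
      unfold qk
      simp only [zero_mul, Real.cosh_zero, mul_one]
    rw [e1]
    have e2 : (fun m : ℕ => (2 * ∫ u in (0:ℝ)..1, (1 - u) ^ 2 * ((-1) ^ m * u ^ (2 * m) / (2 * m).factorial)) * b ^ (2 * m)) =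
        fun m : ℕ => 2 * ∫ u in (0:ℝ)..1, (1 - u) ^ 2 * ((-1) ^ m * (b * u) ^ (2 * m) / (2 * m).factorial) := by
      funext m
      rw [mul_assoc, ← intervalIntegral.integral_mul_const]
      congr 1
      apply intervalIntegral.integral_congr
      intro u _
      simp only
      rw [mul_pow]
      ring
    rw [e2]
    exact h2

lemma base : HasE (fun z => 1 - 3 / 2 * qk 0 (2 * Real.pi * z)) 0 := by
  obtain ⟨c, c0, hc, hs⟩ := qk_series
  refine ⟨fun m => (if m = 0 then 1 else 0) - 3 / 2 * (c m * (2 * Real.pi) ^ (2 * m)), ?_, ?_, ?_⟩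
  · have h1 : Summable (fun m : ℕ => (if m = 0 then (1 : ℝ) else 0)) := summable_of_hasFiniteSupport (by
      refine (Set.finite_singleton (0 : ℕ)).subset ?_
      intro m hm
      by_contra h
      apply hm
      exact if_neg h)
    have h2 : Summable (fun m : ℕ => 3 * ((2 * Real.pi) ^ (2 * m) / (2 * m).factorial)) :=
      ((Real.summable_pow_div_factorial (2 * Real.pi)).comp_injective (fun x y h => by
          simpa using h : Function.Injective fun m : ℕ => 2 * m)).mul_left 3
    refine Summable.of_nonneg_of_le (fun m => abs_nonneg _) (fun m => ?_) (h1.add h2)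
    refine (abs_sub _ _).trans (add_le_add (le_of_eq ?_) ?_)
    · split_ifs
      · exact abs_one
      · exact abs_zero
    · have hpi := Real.pi_pos
      rw [abs_mul, abs_mul, abs_of_pos (by norm_num : (0 : ℝ) < 3 / 2), abs_of_pos (show 0 < (2 * Real.pi) ^ (2 * m) by positivity)]
      calc 3 / 2 * (|c m| * (2 * Real.pi) ^ (2 * m)) ≤ 3 / 2 * (2 / (2 * m).factorial * (2 * Real.pi) ^ (2 * m)) := by
            gcongr
            exact hc m
        _ = _ := by ring
  · intro m hm
    obtain rfl : m = 0 := by omega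
    simp [c0]
  · intro z _
    have h1 := (hs (2 * Real.pi * z)).mul_left (3 / 2)
    have h2 : HasSum (fun m : ℕ => (if m = 0 then (1 : ℝ) else 0)) 1 := hasSum_ite_eq 0 1
    have h3 := h2.sub h1
    have e2 : (fun m : ℕ => ((if m = 0 then (1 : ℝ) else 0) - 3 / 2 * (c m * (2 * Real.pi) ^ (2 * m))) * z ^ (2 * m)) =
        fun m : ℕ => (if m = 0 then (1 : ℝ) else 0) - 3 / 2 * (c m * (2 * Real.pi * z) ^ (2 * m)) := by
      funext m
      rw [mul_pow _ z]
      by_cases h : m = 0
      · rw [if_pos h, h]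
        simp
      · rw [if_neg h]
        ring
    rw [e2]
    exact h3

end Pool.Agent.Helper4.NW
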