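import Pool.Agent.Helper44.NW.GLow
import Pool.Agent.Helper60.NS.Shift
import Pool.Agent.Helper56.UG.Cv

/-!
# NW, block K: the final upper bounds
-/

set_option autoImplicit false
open MeasureTheory Set Filter Topology
open Pool.Agent.Helper57.Zeta Pool.Agent.Helper57.LH Pool.Agent.Helper57.ED
open Pool.Agent.Helper93.UG (zc sp)
open Pool.Agent.Helper57.NS (cnt)
open Pool.Agent.Helper57.NW
open Pool.Agent.Helper44.NW (GoodW PointW)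

namespace Pool.Agent.Helper4.NW

/-- stub dp_up -/
def DpUp (k d : ℝ) (n : ℕ) : Prop :=
  ∃ C T₀ : ℝ, 1 ≤ C ∧
    ∀ T R L e : ℝ, T₀ ≤ T → C ≤ L → L ≤ Real.log T → 1 ≤ R → R ≤ L ^ (1 - d) → 0 < e → e ≤ 2 →
    volume {t : ℝ | t ∈ Icc (T / 2) (3 * T) ∧ e < |Dw k T R L n t|} ≤
      ENNReal.ofReal (C * (L / R) ^ (-((1 - 7 * k) * e ^ 2)) * T)

/-- stub palm -/
def Palm : Prop := ∀ q : ℕ, ∃ C T₀ : ℝ, 0 < C ∧ ∀ T : ℝ, T₀ ≤ T → ∀ (B : Set ℝ) (v : ℝ), 0 ≤ v →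
    volume B ≤ ENNReal.ofReal (v * T) →
    (zc {g : ℝ | T ≤ g ∧ g ≤ 2 * T ∧ Icc g (g + sp T) ⊆ B} : ℝ) ≤ C * v ^ (1 - 1 / (q + 1) : ℝ) * (T * Real.log T)

lemma sp_pos {T : ℝ} (hT : 1 < T) : 0 < sp T := by
  unfold sp
  have := Real.log_pos hT
  positivity

/-- the thick bad set -/
theorem core {k d : ℝ} (hk : 0 < k) (hk8 : k ≤ 1 / 32) (hd : 0 < d) (hd1 : d ≤ 1) {n : ℕ}
    (h1 : GoodW k d n) (h2 : PointW k d n) (h3 : DpUp k d n) :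
    ∃ C T₀ : ℝ, 1 ≤ C ∧ ∀ T R L e : ℝ, T₀ ≤ T → C ≤ L → L ≤ Real.log T → 1 ≤ R → R ≤ L ^ (1 - d) → 0 < e → e ≤ 1 →
      1 ≤ L / R ∧ ∃ E : Set ℝ, volume E ≤ ENNReal.ofReal (C * (L / R) ^ (-((1 - 7 * k) * e ^ 2)) * T) ∧
      ∀ t ∈ Icc (T / 2) (3 * T), ∀ u : ℝ, |u - t| ≤ sp T → Bad k T R L n e u → t ∈ E := by
  obtain ⟨c1, C1, T1, hc1, hC1, H1⟩ := h1
  obtain ⟨C2, hC2, H2⟩ := h2
  obtain ⟨C3, T3, hC3, H3⟩ := h3
  obtain ⟨c, hc⟩ : ∃ c : ℝ, c = min c1 1 := ⟨_, rfl⟩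
  have hc0 : 0 < c := by rw [hc]; exact lt_min hc1 one_pos
  have hcc1 : c ≤ c1 := by rw [hc]; exact min_le_left _ _
  have hcc2 : c ≤ 1 := by rw [hc]; exact min_le_right _ _
  obtain ⟨D, hD⟩ : ∃ D : ℝ, D = 2 * C1 + C2 := ⟨_, rfl⟩
  have hD0 : 0 < D := by rw [hD]; linarith
  obtain ⟨K, hK, HK⟩ := Pool.Agent.Helper60.NS.shift hc0 hD0.le
  refine ⟨C1 + C2 + C3 * (K + 1) + 3 * K, max (max T1 T3) 3, ?_, ?_⟩
  · have : 0 ≤ C3 * (K + 1) := by positivity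
    linarith
  intro T R L e hT hCL hLT hR hRL he he1
  simp only [max_le_iff] at hT
  obtain ⟨⟨hTa, hTb⟩, hTe⟩ := hT
  have hCK : 0 ≤ C3 * K := by positivity
  have hK0 : 0 < K := by linarith
  have hL1 : 1 ≤ L := by linarith
  have hL0 : 0 < L := by linarith
  have hT1 : 1 < T := by linarith
  have hT0 : 0 < T := by linarith
  have hR0 : 0 < R := by linarith
  obtain ⟨U, hU⟩ : ∃ U : ℝ, U = L / R := ⟨_, rfl⟩
  have hRL' : R ≤ L := by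
    refine hRL.trans ?_
    calc L ^ (1 - d) ≤ L ^ (1 : ℝ) := Real.rpow_le_rpow_of_exponent_le hL1 (by linarith)
      _ = L := Real.rpow_one L
  have hU1 : 1 ≤ U := by
    rw [hU, le_div_iff₀ hR0]
    linarith
  have hUL : U ≤ L := by
    rw [hU]
    exact div_le_self hL0.le hR
  have hU0 : 0 < U := by linarith
  rw [← hU]
  refine ⟨hU1, ?_⟩
  obtain ⟨a, ha⟩ : ∃ a : ℝ, a = 1 - 7 * k := ⟨_, rfl⟩
  have ha0 : 0 ≤ a := by rw [ha]; linarith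
  have ha1 : a ≤ 1 := by rw [ha]; linarith
  rw [← ha]
  obtain ⟨P, hP⟩ : ∃ P : ℝ, P = U ^ (-(a * e ^ 2)) := ⟨_, rfl⟩
  have hP0 : 0 < P := by rw [hP]; positivity
  have he2 : a * e ^ 2 ≤ 1 := by
    have : e ^ 2 ≤ 1 := pow_le_one₀ he.le he1
    nlinarith
  have hP4 : L ^ (-4 : ℝ) ≤ P := by
    rw [hP]
    calc L ^ (-4 : ℝ) ≤ U ^ (-4 : ℝ) := Real.rpow_le_rpow_of_nonpos hU0 hUL (by norm_num)
      _ ≤ U ^ (-(a * e ^ 2)) := Real.rpow_le_rpow_of_exponent_le hU1 (by linarith)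
  rw [← hP]
  have hpow : ∀ x : ℝ, c ≤ x → L ^ (-x) ≤ L ^ (-c) := fun x hx =>
    Real.rpow_le_rpow_of_exponent_le hL1 (by linarith)
  have hDc : C1 * L ^ (-c1) + (C1 * L ^ (-c1) + C2 * L ^ (-1 : ℝ)) ≤ D * L ^ (-c) := by
    have g1 : C1 * L ^ (-c1) ≤ C1 * L ^ (-c) := mul_le_mul_of_nonneg_left (hpow _ hcc1) (by linarith)
    have g2 : C2 * L ^ (-1 : ℝ) ≤ C2 * L ^ (-c) := mul_le_mul_of_nonneg_left (hpow _ hcc2) (by linarith)
    rw [hD]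
    linarith
  have hDU : D * L ^ (-c) ≤ D * U ^ (-c) :=
    mul_le_mul_of_nonneg_left (Real.rpow_le_rpow_of_nonpos hU0 hUL (by linarith)) hD0.le
  by_cases hsm : e ≤ D * L ^ (-c)
  · -- trivial case
    refine ⟨Icc (T / 2) (3 * T), ?_, fun t ht _ _ _ => ht⟩
    rw [Real.volume_Icc]
    apply ENNReal.ofReal_le_ofReal
    have h6 := HK U a e 0 hU1 ha0 (by linarith) he.le (by linarith) le_rfl (by norm_num) (by
      rw [sub_zero, abs_of_pos he]; exact hsm.trans hDU)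
    rw [← hP] at h6
    have h7 : (1:ℝ) ≤ K * P := by
      refine le_trans (le_of_eq ?_) h6
      norm_num
    have h8 : 0 ≤ (C1 + C2 + C3 * (K + 1)) * P * T := by positivity
    nlinarith
  push Not at hsm
  obtain ⟨e', he'⟩ : ∃ e' : ℝ, e' = e - D * L ^ (-c) := ⟨_, rfl⟩
  have he'0 : 0 < e' := by rw [he']; linarith
  have hDL : 0 ≤ D * L ^ (-c) := by positivity
  have he'1 : e' ≤ 1 := by rw [he']; linarith
  have hCb : 0 ≤ C3 * (K + 1) := by positivity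
  obtain ⟨E1, hE1, G1⟩ := H1 T R L hTa (by linarith) hLT hR hRL
  have hE3 := H3 T R L e' hTb (by nlinarith) hLT hR hRL he'0 (by linarith)
  refine ⟨E1 ∪ {t : ℝ | t ∈ Icc (T / 2) (3 * T) ∧ e' < |Dw k T R L n t|}, ?_, ?_⟩
  · rw [← ha, ← hU] at hE3
    have h6 := HK U a e e' hU1 ha0 (by linarith) he.le (by linarith) he'0.le (by linarith) (by
      rw [he', sub_sub_cancel, abs_of_nonneg hDL]; exact hDU)
    rw [← hP] at h6
    refine (measure_union_le _ _).trans ((add_le_add hE1 hE3).trans ?_)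
    rw [← ENNReal.ofReal_add (by positivity) (by positivity)]
    apply ENNReal.ofReal_le_ofReal
    have g1 : C1 * L ^ (-4 : ℝ) * T ≤ C1 * P * T := by gcongr
    have g4 : C3 * U ^ (-(a * e' ^ 2)) * T ≤ C3 * (K * P) * T := by gcongr
    have g5 : 0 ≤ (C2 + C3 + 3 * K) * P * T := by positivity
    nlinarith
  · intro t ht u hu hB
    by_contra hcon
    simp only [mem_union, not_or] at hcon
    obtain ⟨n1, n2⟩ := hcon
    obtain ⟨m1, m2, m3⟩ := G1 t ht n1 u hu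
    obtain ⟨W, hW, hWe⟩ := hB
    have m4 := H2 T R L u _ W hTe (by nlinarith) hR hRL m2 m3 hW
    have m5 : |Dw k T R L n t| ≤ e' := by
      by_contra hh
      push Not at hh
      exact n2 ⟨ht, hh⟩
    have m6 : |cnt T u W - prd k T R L n u W| ≤
        |(cnt T u W - prd k T R L n u W) - (Tw k T R L n u - Mw k R L n)| +
        |Tw k T R L n u - (Mw k R L n - Dw k T R L n t)| + |Dw k T R L n t| := by
      have : cnt T u W - prd k T R L n u W =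
          ((cnt T u W - prd k T R L n u W) - (Tw k T R L n u - Mw k R L n)) +
          (Tw k T R L n u - (Mw k R L n - Dw k T R L n t)) + (-Dw k T R L n t) := by ring
      refine (le_of_eq (congrArg abs this)).trans ((abs_add_three _ _ _).trans ?_)
      rw [abs_neg]
    linarith

/-- K, upper bound -/
theorem final_up_of {k d : ℝ} (hk : 0 < k) (hk8 : k ≤ 1 / 32) (hd : 0 < d) (hd1 : d ≤ 1) {n : ℕ}
    (h1 : GoodW k d n) (h2 : PointW k d n) (h3 : DpUp k d n) :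
    ∃ C T₀ : ℝ, 1 ≤ C ∧ ∀ T R L e : ℝ, T₀ ≤ T → C ≤ L → L ≤ Real.log T → 1 ≤ R → R ≤ L ^ (1 - d) → 0 < e → e ≤ 1 →
    volume {t : ℝ | T ≤ t ∧ t ≤ 2 * T ∧ Bad k T R L n e t} ≤
      ENNReal.ofReal (C * (L / R) ^ (-((1 - 7 * k) * e ^ 2)) * T) := by
  obtain ⟨C, T₀, hC, H⟩ := core hk hk8 hd hd1 h1 h2 h3
  refine ⟨C, max T₀ 3, hC, fun T R L e hT hCL hLT hR hRL he he1 => ?_⟩
  simp only [max_le_iff] at hT
  have hs := sp_pos (show 1 < T by linarith)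
  obtain ⟨_, E, hE, hEt⟩ := H T R L e hT.1 hCL hLT hR hRL he he1
  refine (measure_mono ?_).trans hE
  rintro t ⟨ht1, ht2, ht3⟩
  exact hEt t ⟨by linarith, by linarith⟩ t (by simp [hs.le]) ht3

/-- K: the ordinates -/
theorem final_g_of {k d : ℝ} (hk : 0 < k) (hk8 : k ≤ 1 / 32) (hd : 0 < d) (hd1 : d ≤ 1) {n : ℕ}
    (h1 : GoodW k d n) (h2 : PointW k d n) (h3 : DpUp k d n) (h4 : Palm) :
    ∃ C T₀ : ℝ, 1 ≤ C ∧ ∀ T R L e : ℝ, T₀ ≤ T → C ≤ L → L ≤ Real.log T → 1 ≤ R → R ≤ L ^ (1 - d) → 0 < e → e ≤ 1 →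
    (zc {g : ℝ | T ≤ g ∧ g ≤ 2 * T ∧ Bad k T R L n e g} : ℝ) ≤
      C * (L / R) ^ (-((1 - 8 * k) * e ^ 2)) * (T * Real.log T) := by
  obtain ⟨C, T₀, hC, H⟩ := core hk hk8 hd hd1 h1 h2 h3
  obtain ⟨q, hq⟩ := exists_nat_ge (1 / k)
  obtain ⟨CP, TP, hCP, HP⟩ := h4 q
  have hq1 : 1 / ((q : ℝ) + 1) ≤ k := by
    rw [div_le_iff₀ (by positivity)]
    rw [div_le_iff₀ hk] at hq
    nlinarith
  have hq0 : 0 < 1 / ((q : ℝ) + 1) := by positivity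
  obtain ⟨b, hb⟩ : ∃ b : ℝ, b = 1 - 1 / ((q : ℝ) + 1) := ⟨_, rfl⟩
  have hb0 : 0 ≤ b := by rw [hb]; linarith
  have hb1 : 1 - k ≤ b := by rw [hb]; linarith
  have hC0 : 0 < C := by linarith
  refine ⟨max C (CP * C ^ b), max (max T₀ TP) (Real.exp 7), hC.trans (le_max_left _ _), ?_⟩
  intro T R L e hT hCL hLT hR hRL he he1
  simp only [max_le_iff] at hT hCL
  obtain ⟨⟨hT₀, hTP⟩, hTe⟩ := hT
  have he7 : (8:ℝ) ≤ Real.exp 7 := by
    have := Real.add_one_le_exp (7:ℝ)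
    linarith
  have hT1 : 1 < T := by linarith
  have hT0 : 0 < T := by linarith
  have hlog : 7 ≤ Real.log T := by
    rw [Real.le_log_iff_exp_le hT0]
    exact hTe
  have hs := sp_pos hT1
  have hs1 : sp T ≤ 1 := by
    unfold sp
    rw [div_le_one (by linarith)]
    have := Real.pi_lt_d2
    linarith
  have hTL : 0 ≤ T * Real.log T := by positivity
  obtain ⟨hU1, E, hE, hEt⟩ := H T R L e hT₀ hCL.1 hLT hR hRL he he1
  have hU0 : 0 < L / R := by linarith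
  have h7 : {g : ℝ | T ≤ g ∧ g ≤ 2 * T ∧ Bad k T R L n e g} ⊆ {g : ℝ | T ≤ g ∧ g ≤ 2 * T ∧ Icc g (g + sp T) ⊆ E} := by
    rintro g ⟨hg1, hg2, hg3⟩
    refine ⟨hg1, hg2, fun t ht => ?_⟩
    refine hEt t ⟨by linarith [ht.1], by linarith [ht.2]⟩ g ?_ hg3
    rw [abs_le]
    constructor <;> linarith [ht.1, ht.2]
  have h8 : (zc {g : ℝ | T ≤ g ∧ g ≤ 2 * T ∧ Bad k T R L n e g} : ℝ) ≤
      (zc {g : ℝ | T ≤ g ∧ g ≤ 2 * T ∧ Icc g (g + sp T) ⊆ E} : ℝ) := by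
    exact_mod_cast Pool.Agent.Helper56.UG.zc_mono h7 (J := {g : ℝ | T ≤ g ∧ g ≤ 2 * T ∧ Icc g (g + sp T) ⊆ E})
      (a := T) (b := 2 * T) fun g hg => ⟨hg.1, hg.2.1⟩
  refine h8.trans ((HP T hTP E (C * (L / R) ^ (-((1 - 7 * k) * e ^ 2))) (by positivity) hE).trans ?_)
  apply mul_le_mul_of_nonneg_right _ hTL
  rw [← hb, Real.mul_rpow hC0.le (by positivity), ← Real.rpow_mul hU0.le, ← mul_assoc]
  have h9 : (L / R) ^ (-((1 - 7 * k) * e ^ 2) * b) ≤ (L / R) ^ (-((1 - 8 * k) * e ^ 2)) := by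
    apply Real.rpow_le_rpow_of_exponent_le hU1
    have : 1 - 8 * k ≤ (1 - 7 * k) * b := by nlinarith
    have h10 : (1 - 8 * k) * e ^ 2 ≤ (1 - 7 * k) * b * e ^ 2 := mul_le_mul_of_nonneg_right this (by positivity)
    linarith
  calc CP * C ^ b * (L / R) ^ (-((1 - 7 * k) * e ^ 2) * b) ≤ CP * C ^ b * (L / R) ^ (-((1 - 8 * k) * e ^ 2)) := by gcongr
    _ ≤ _ := by
        gcongr
        exact le_max_right _ _

end Pool.Agent.Helper4.NW
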