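import Pool.Agent.Helper57.NW.Defs
import Pool.Agent.Helper4.NW.Core

/-!
# NW, blocks FL2, FL3: the flattened test functions
-/

set_option autoImplicit false
open MeasureTheory Set Filter Topology
open Pool.Agent.Helper54.LG (qk)
open Pool.Agent.Helper57.NW

namespace Pool.Agent.Helper4.NW

/-- the weights vanish outside of the index set -/
lemma bw_out (k R L : ℝ) (n : ℕ) : ∀ j, ⌊L / k⌋₊ + 1 + n ≤ j → bw k R L n j = 0 := by
  induction n with
  | zero =>
    intro j hj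
    show (if j ∈ Sc k R L then 3 / (2 * ((Sc k R L).card : ℝ)) else 0) = 0
    rw [if_neg]
    intro h
    unfold Sc at h
    rw [Finset.mem_filter, Finset.mem_range] at h
    omega
  | succ n ih =>
    intro j hj
    show fl k (n + 1) (bw k R L n) j = 0
    unfold fl
    rw [if_neg (by omega), ih (j - 1) (by omega), ih j (by omega)]
    simp

theorem ph_zero {k R L x : ℝ} : ph k R L 0 x =
    3 / (2 * ((Sc k R L).card : ℝ)) * ∑ j ∈ Sc k R L, qk 0 (2 * Real.pi * x / (1 + k) ^ j) := by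
  unfold ph Pb
  have h1 : ∀ j, bw k R L 0 j * qk 0 (2 * Real.pi * x / (1 + k) ^ j) =
      if j ∈ Sc k R L then 3 / (2 * ((Sc k R L).card : ℝ)) * qk 0 (2 * Real.pi * x / (1 + k) ^ j) else 0 := by
    intro j
    show (if j ∈ Sc k R L then 3 / (2 * ((Sc k R L).card : ℝ)) else 0) * _ = _
    split_ifs
    · rfl
    · exact zero_mul _
  simp_rw [h1]
  have h2 : Sc k R L ⊆ Jw k L 0 := by
    unfold Sc Jw
    exact Finset.filter_subset _ _
  rw [Finset.mul_sum, ← Finset.sum_filter, Finset.filter_mem_eq_inter, Finset.inter_eq_right.2 h2]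

theorem ph_succ {k R L x : ℝ} (n : ℕ) : ph k R L (n + 1) x =
    (ph k R L n (x / (1 + k)) - ph k R L n x / (1 + k) ^ (2 * (n + 1))) / (1 - 1 / (1 + k) ^ (2 * (n + 1))) := by
  unfold ph Pb
  set b : ℕ → ℝ := bw k R L n with hb
  set N : ℕ := ⌊L / k⌋₊ + 1 + n with hN
  have hJ : Jw k L (n + 1) = Finset.range (N + 1) := rfl
  have hJ' : Jw k L n = Finset.range N := rfl
  rw [hJ, hJ']
  have h1 : ∑ j ∈ Finset.range (N + 1), bw k R L (n + 1) j * qk 0 (2 * Real.pi * x / (1 + k) ^ j) =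
      ((∑ j ∈ Finset.range (N + 1), (if j = 0 then 0 else b (j - 1)) * qk 0 (2 * Real.pi * x / (1 + k) ^ j)) -
        (∑ j ∈ Finset.range (N + 1), b j * qk 0 (2 * Real.pi * x / (1 + k) ^ j)) / (1 + k) ^ (2 * (n + 1))) /
        (1 - 1 / (1 + k) ^ (2 * (n + 1))) := by
    rw [Finset.sum_div, ← Finset.sum_sub_distrib, Finset.sum_div]
    refine Finset.sum_congr rfl fun j _ => ?_
    show fl k (n + 1) b j * _ = _
    unfold fl
    ring
  have h2 : ∑ j ∈ Finset.range (N + 1), (if j = 0 then 0 else b (j - 1)) * qk 0 (2 * Real.pi * x / (1 + k) ^ j) =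
      ∑ j ∈ Finset.range N, b j * qk 0 (2 * Real.pi * (x / (1 + k)) / (1 + k) ^ j) := by
    rw [Finset.sum_range_succ']
    simp only [if_true, zero_mul, add_zero]
    refine Finset.sum_congr rfl fun j _ => ?_
    rw [if_neg (Nat.succ_ne_zero j), Nat.add_sub_cancel]
    congr 2
    rw [pow_succ', div_mul_eq_div_div, mul_div_assoc]
  have h3 : ∑ j ∈ Finset.range (N + 1), b j * qk 0 (2 * Real.pi * x / (1 + k) ^ j) =
      ∑ j ∈ Finset.range N, b j * qk 0 (2 * Real.pi * x / (1 + k) ^ j) := by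
    rw [Finset.sum_range_succ, hb, bw_out k R L n N le_rfl, zero_mul, add_zero]
  rw [h1, h2, h3]

/-- the function of one scale -/
noncomputable def Ef (k : ℝ) : ℕ → ℝ → ℝ
  | 0 => fun z => 1 - 3 / 2 * qk 0 (2 * Real.pi * z)
  | n + 1 => fun z => (Ef k n (z / (1 + k)) - Ef k n z / (1 + k) ^ (2 * (n + 1))) / (1 - 1 / (1 + k) ^ (2 * (n + 1)))

lemma Ef_has {k : ℝ} (hk : 0 < k) (n : ℕ) : HasE (Ef k n) n := by
  induction n with
  | zero => exact base
  | succ n ih => exact ih.step hk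

/-- the test function as a mean over the scales -/
lemma one_sub_ph {k R L : ℝ} (hk : 0 < k) (hS : (Sc k R L).Nonempty) (n : ℕ) : ∀ x : ℝ,
    1 - ph k R L n x = (∑ j ∈ Sc k R L, Ef k n (x / (1 + k) ^ j)) / ((Sc k R L).card : ℝ) := by
  have hc : ((Sc k R L).card : ℝ) ≠ 0 := by
    exact_mod_cast (Finset.card_pos.2 hS).ne'
  induction n with
  | zero =>
    intro x
    rw [ph_zero]
    show _ = (∑ j ∈ Sc k R L, (1 - 3 / 2 * qk 0 (2 * Real.pi * (x / (1 + k) ^ j)))) / _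
    rw [Finset.sum_sub_distrib, Finset.sum_const, nsmul_eq_mul, mul_one, ← Finset.mul_sum]
    have h1 : ∀ j, 2 * Real.pi * (x / (1 + k) ^ j) = 2 * Real.pi * x / (1 + k) ^ j := fun j => by ring
    simp_rw [h1]
    field_simp
  | succ n ih =>
    intro x
    have h0 : 1 - 1 / (1 + k) ^ (2 * (n + 1)) ≠ 0 := by
      have h1 : 1 < (1 + k) ^ (2 * (n + 1)) := one_lt_pow₀ (by linarith) (by omega)
      have h2 : 1 / (1 + k) ^ (2 * (n + 1)) < 1 := by
        rw [div_lt_one (by linarith)]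
        exact h1
      linarith
    have h1 : 1 - ph k R L (n + 1) x =
        ((1 - ph k R L n (x / (1 + k))) - (1 - ph k R L n x) / (1 + k) ^ (2 * (n + 1))) /
          (1 - 1 / (1 + k) ^ (2 * (n + 1))) := by
      rw [ph_succ n, eq_div_iff h0, sub_mul, div_mul_cancel₀ _ h0]
      ring
    rw [h1, ih, ih]
    show _ = (∑ j ∈ Sc k R L, (Ef k n (x / (1 + k) ^ j / (1 + k)) -
      Ef k n (x / (1 + k) ^ j) / (1 + k) ^ (2 * (n + 1))) / (1 - 1 / (1 + k) ^ (2 * (n + 1)))) / _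
    rw [← Finset.sum_div, Finset.sum_sub_distrib, ← Finset.sum_div]
    have h2 : ∀ j, x / (1 + k) ^ j / (1 + k) = x / (1 + k) / (1 + k) ^ j := fun j => div_right_comm _ _ _
    simp_rw [h2]
    field_simp

/-- there is a scale -/
lemma Sc_nonempty {k d : ℝ} (hk : 0 < k) (hk8 : k ≤ 1 / 8) (hd : 0 < d) : ∃ C : ℝ, 1 ≤ C ∧ ∀ R L : ℝ, C ≤ L →
    1 ≤ R → R ≤ L ^ (1 - d) → (Sc k R L).Nonempty := by
  refine ⟨max 1 (2 ^ (4 / (3 * d))), le_max_left _ _, fun R L hC hR hRL => ?_⟩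
  have hL1 : 1 ≤ L := (le_max_left _ _).trans hC
  have hL0 : 0 < L := by linarith
  have hR0 : 0 < R := by linarith
  set U : ℝ := L / R with hU
  have hU0 : 0 < U := by positivity
  have hUd : L ^ d ≤ U := by
    rw [hU, le_div_iff₀ hR0]
    calc L ^ d * R ≤ L ^ d * L ^ (1 - d) := mul_le_mul_of_nonneg_left hRL (by positivity)
      _ = L := by
        rw [← Real.rpow_add hL0]
        simp
  have hL2 : 2 ≤ L ^ (3 / 4 * d) := by
    have h1 : (2 : ℝ) ^ (4 / (3 * d)) ≤ L := (le_max_right _ _).trans hC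
    have h2 := Real.rpow_le_rpow (by positivity) h1 (show 0 ≤ 3 / 4 * d by positivity)
    rw [← Real.rpow_mul (by norm_num)] at h2
    have h3 : 4 / (3 * d) * (3 / 4 * d) = 1 := by field_simp
    rw [h3, Real.rpow_one] at h2
    exact h2
  have hU1 : 1 ≤ U := le_trans (Real.one_le_rpow hL1 hd.le) hUd
  have hU2 : 1 + k ≤ U ^ (1 - 2 * k) := by
    calc 1 + k ≤ 2 := by linarith
      _ ≤ L ^ (3 / 4 * d) := hL2
      _ = (L ^ d) ^ (3 / 4 : ℝ) := by rw [← Real.rpow_mul hL0.le, mul_comm]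
      _ ≤ U ^ (3 / 4 : ℝ) := Real.rpow_le_rpow (by positivity) hUd (by norm_num)
      _ ≤ U ^ (1 - 2 * k) := Real.rpow_le_rpow_of_exponent_le hU1 (by linarith)
  set w : ℝ := R * U ^ k with hw
  have hw1 : 1 ≤ w := by
    have : 1 ≤ U ^ k := Real.one_le_rpow hU1 hk.le
    nlinarith
  have hex : ∃ j : ℕ, w ≤ (1 + k) ^ j := by
    obtain ⟨j, hj⟩ := pow_unbounded_of_one_lt w (show 1 < 1 + k by linarith)
    exact ⟨j, hj.le⟩
  classical
  set j := Nat.find hex with hj
  have hj1 : w ≤ (1 + k) ^ j := Nat.find_spec hex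
  have hj2 : (1 + k) ^ j ≤ (1 + k) * w := by
    rcases Nat.eq_zero_or_pos j with h | h
    · rw [h, pow_zero]
      nlinarith
    · obtain ⟨i, hi⟩ := Nat.exists_eq_succ_of_ne_zero h.ne'
      have h1 := Nat.find_min hex (show i < Nat.find hex by omega)
      push Not at h1
      rw [hi, Nat.succ_eq_add_one, pow_succ']
      exact mul_le_mul_of_nonneg_left h1.le (by linarith)
  have hj3 : (1 + k) * w ≤ L * U ^ (-k) := by
    have h1 : L = R * U := by rw [hU]; field_simp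
    have h2 : U * U ^ (-k) = U ^ k * U ^ (1 - 2 * k) := by
      rw [← Real.rpow_add hU0]
      nth_rewrite 1 [← Real.rpow_one U]
      rw [← Real.rpow_add hU0]
      congr 1
      ring
    calc (1 + k) * w ≤ U ^ (1 - 2 * k) * w := mul_le_mul_of_nonneg_right hU2 (by linarith)
      _ = R * (U ^ k * U ^ (1 - 2 * k)) := by rw [hw]; ring
      _ = R * U * U ^ (-k) := by rw [← h2]; ring
      _ = L * U ^ (-k) := by rw [← h1]
  refine ⟨j, ?_⟩
  unfold Sc
  rw [Finset.mem_filter, Finset.mem_range]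
  refine ⟨?_, hj1, hj2.trans hj3⟩
  have h1 : 1 + (j : ℝ) * k ≤ (1 + k) ^ j := one_add_mul_le_pow (by linarith) j
  have h2 : U ^ (-k) ≤ 1 := Real.rpow_le_one_of_one_le_of_nonpos hU1 (by linarith)
  have h3 : (1 + k) ^ j ≤ L := (hj2.trans hj3).trans (by nlinarith)
  have h4 : (j : ℝ) ≤ L / k := by
    rw [le_div_iff₀ hk]
    linarith
  have h5 : j ≤ ⌊L / k⌋₊ := Nat.le_floor h4
  omega

/-- **FL2**: flatness -/
theorem ph_flat {k d : ℝ} (hk : 0 < k) (hk8 : k ≤ 1 / 8) (hd : 0 < d) (hd1 : d ≤ 1) {n : ℕ} (hn : 1 ≤ k * d * n) :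
    ∃ C : ℝ, 1 ≤ C ∧ ∀ R L x : ℝ, C ≤ L → 1 ≤ R → R ≤ L ^ (1 - d) → |x| ≤ R → |1 - ph k R L n x| ≤ C * L ^ (-2 : ℝ) := by
  obtain ⟨C₁, hC₁, hne⟩ := Sc_nonempty hk hk8 hd
  obtain ⟨C₂, hC₂, hb⟩ := (Ef_has hk n).bd
  refine ⟨max C₁ C₂, hC₁.trans (le_max_left _ _), fun R L x hC hR hRL hx => ?_⟩
  have hL1 : 1 ≤ L := hC₁.trans ((le_max_left _ _).trans hC)
  have hL0 : 0 < L := by linarith
  have hR0 : 0 < R := by linarith
  have hS := hne R L ((le_max_left _ _).trans hC) hR hRL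
  set U : ℝ := L / R with hU
  have hU0 : 0 < U := by positivity
  have hUd : L ^ d ≤ U := by
    rw [hU, le_div_iff₀ hR0]
    calc L ^ d * R ≤ L ^ d * L ^ (1 - d) := mul_le_mul_of_nonneg_left hRL (by positivity)
      _ = L := by
        rw [← Real.rpow_add hL0]
        simp
  have hU1 : 1 ≤ U := le_trans (Real.one_le_rpow hL1 hd.le) hUd
  have hcard : (0 : ℝ) < (Sc k R L).card := by exact_mod_cast Finset.card_pos.2 hS
  rw [one_sub_ph hk hS n x, abs_div, abs_of_pos hcard, div_le_iff₀ hcard]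
  have hone : ∀ j ∈ Sc k R L, |Ef k n (x / (1 + k) ^ j)| ≤ C₂ * L ^ (-2 : ℝ) := by
    intro j hj
    unfold Sc at hj
    rw [Finset.mem_filter] at hj
    have h1 : R * U ^ k ≤ (1 + k) ^ j := hj.2.1
    have hUk : 0 < U ^ k := by positivity
    have hpj : 0 < (1 + k) ^ j := by positivity
    have h2 : |x / (1 + k) ^ j| ≤ U ^ (-k) := by
      rw [abs_div, abs_of_pos hpj, div_le_iff₀ hpj]
      have h3 : U ^ (-k) * (R * U ^ k) = R := by
        rw [Real.rpow_neg hU0.le]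
        field_simp
      calc |x| ≤ R := hx
        _ = U ^ (-k) * (R * U ^ k) := h3.symm
        _ ≤ U ^ (-k) * (1 + k) ^ j := mul_le_mul_of_nonneg_left h1 (by positivity)
    have h3 : U ^ (-k) ≤ 1 := Real.rpow_le_one_of_one_le_of_nonpos hU1 (by linarith)
    refine (hb _ (h2.trans h3)).trans (mul_le_mul_of_nonneg_left ?_ hC₂)
    calc |x / (1 + k) ^ j| ^ (2 * n + 2) ≤ (U ^ (-k)) ^ (2 * n + 2) := pow_le_pow_left₀ (abs_nonneg _) h2 _
      _ ≤ (U ^ (-k)) ^ (2 * n) := pow_le_pow_of_le_one (by positivity) h3 (by omega)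
      _ = U ^ (-(2 * (k * n))) := by
        rw [← Real.rpow_natCast, ← Real.rpow_mul hU0.le]
        congr 1
        push_cast
        ring
      _ ≤ (L ^ d) ^ (-(2 * (k * n))) := by
        apply Real.rpow_le_rpow_of_nonpos (by positivity) hUd
        have : 0 ≤ k * n := by positivity
        linarith
      _ = L ^ (-(2 * (k * d * n))) := by
        rw [← Real.rpow_mul hL0.le]
        congr 1
        ring
      _ ≤ L ^ (-2 : ℝ) := Real.rpow_le_rpow_of_exponent_le hL1 (by linarith)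
  refine (Finset.abs_sum_le_sum_abs _ _).trans ((Finset.sum_le_sum hone).trans ?_)
  rw [Finset.sum_const, nsmul_eq_mul, mul_comm]
  refine mul_le_mul_of_nonneg_right ?_ hcard.le
  exact mul_le_mul_of_nonneg_right (le_max_right _ _) (by positivity)

end Pool.Agent.Helper4.NW
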